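import Mathlib

/-!
# Homothetic closed curves, not circles, whose distance graph is 2-regular with finite components

For every `n ≥ 2` there are homothetic simple closed curves `A`, `B` in Euclidean `n`-space, not
circles (they do not even lie on spheres), and a distance `d > 0`, such that every point of
`A ∪ B` has exactly two neighbours in the graph `G_d` and every component of `G_d` is finite.
For `n ≥ 3` the curves are disjoint (`B` is a translate of `A`); for `n = 2` they coincide.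
-/

set_option autoImplicit false

open Complex

namespace Pool.Agent.Results.MP_945a85_co.NonCircularLoci

/-- A simple closed curve: the image of a continuous injective map of the circle. -/
def IsSimpleClosedCurve {n : ℕ} (A : Set (EuclideanSpace ℝ (Fin n))) : Prop :=
  ∃ f : Circle → EuclideanSpace ℝ (Fin n), Continuous f ∧ Function.Injective f ∧ Set.range f = A

/-- `B` is the image of `A` under a homothety or translation `x ↦ c x + v`, `c ≠ 0`. -/
def Homothetic {n : ℕ} (A B : Set (EuclideanSpace ℝ (Fin n))) : Prop :=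
  ∃ (c : ℝ) (v : EuclideanSpace ℝ (Fin n)), c ≠ 0 ∧ B = (fun x => c • x + v) '' A

/-- A circle: the intersection of a sphere of positive radius with a two-dimensional plane through
its centre. -/
def IsCircle {n : ℕ} (S : Set (EuclideanSpace ℝ (Fin n))) : Prop :=
  ∃ (c : EuclideanSpace ℝ (Fin n)) (r : ℝ) (V : Submodule ℝ (EuclideanSpace ℝ (Fin n))),
    0 < r ∧ Module.finrank ℝ V = 2 ∧ S = {x | dist x c = r ∧ x - c ∈ V}

/-- The graph `G_d` on the vertex set `A ∪ B`: each point of `A` is joined to every point of `B` at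
distance `d` from it, and each point of `B` to every point of `A` at distance `d` from it. -/
def distGraph {n : ℕ} (A B : Set (EuclideanSpace ℝ (Fin n))) (d : ℝ) (hd : 0 < d) :
    SimpleGraph ↥(A ∪ B) where
  Adj x y := dist (x : EuclideanSpace ℝ (Fin n)) y = d ∧
    (((x : EuclideanSpace ℝ (Fin n)) ∈ A ∧ (y : EuclideanSpace ℝ (Fin n)) ∈ B) ∨
      ((x : EuclideanSpace ℝ (Fin n)) ∈ B ∧ (y : EuclideanSpace ℝ (Fin n)) ∈ A))
  symm := by
    constructor
    rintro x y ⟨h, h'⟩
    refine ⟨by rw [dist_comm]; exact h, ?_⟩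
    rcases h' with ⟨h1, h2⟩ | ⟨h1, h2⟩
    · exact Or.inr ⟨h2, h1⟩
    · exact Or.inl ⟨h2, h1⟩
  loopless := by
    constructor
    rintro x ⟨h, -⟩
    rw [dist_self] at h
    exact hd.ne h

/-! ### The planar curve -/

/-- The planar curve `z ↦ z + z³ / 10` on the unit circle. -/
noncomputable def P (z : ℂ) : ℂ := z + z ^ 3 / 10

/-- `κ = 1 + 2 Re (z w̄)` -/
noncomputable def kap (z w : ℂ) : ℝ := 1 + 2 * (z.re * w.re + z.im * w.im)

lemma P_dist (z w : ℂ) (hz : normSq z = 1) (hw : normSq w = 1) :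
    normSq (P z - P w) =
      (3 - kap z w) * (1 + kap z w / 5 * (z * w).re + kap z w ^ 2 / 100) := by
  have hq : z ^ 2 + z * w + w ^ 2 = z * w * (kap z w : ℂ) := by
    have h1 : z * (starRingEnd ℂ) z = 1 := by rw [mul_conj, hz]; simp
    have h2 : w * (starRingEnd ℂ) w = 1 := by rw [mul_conj, hw]; simp
    have h3 : (kap z w : ℂ) = 1 + z * (starRingEnd ℂ) w + w * (starRingEnd ℂ) z := by
      apply Complex.ext
      · simp [kap]; ring
      · simp; ring
    rw [h3]
    linear_combination (-(w ^ 2)) * h1 - z ^ 2 * h2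
  have hP : P z - P w = (z - w) * (1 + z * w * (kap z w : ℂ) / 10) := by
    rw [← hq]; unfold P; ring
  rw [hP, normSq_mul]
  have e1 : normSq (z - w) = 3 - kap z w := by
    rw [normSq_apply] at hz hw ⊢
    simp only [sub_re, sub_im, kap]
    linear_combination hz + hw
  have e2 : normSq (1 + z * w * (kap z w : ℂ) / 10) =
      1 + kap z w / 5 * (z * w).re + kap z w ^ 2 / 100 := by
    have h4 : normSq (z * w) = 1 := by rw [normSq_mul, hz, hw, one_mul]
    set u := z * w with hu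
    have hr : (1 + u * (kap z w : ℂ) / 10).re = 1 + u.re * kap z w / 10 := by
      simp
    have hi : (1 + u * (kap z w : ℂ) / 10).im = u.im * kap z w / 10 := by
      simp
    rw [normSq_apply, hr, hi]
    rw [normSq_apply] at h4
    linear_combination (kap z w ^ 2 / 100) * h4
  rw [e1, e2]

lemma kap_bounds (z w : ℂ) (hz : normSq z = 1) (hw : normSq w = 1) :
    -1 ≤ kap z w ∧ kap z w ≤ 3 := by
  rw [normSq_apply] at hz hw
  unfold kap
  constructor <;> nlinarith [sq_nonneg (z.re - w.re), sq_nonneg (z.im - w.im),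
    sq_nonneg (z.re + w.re), sq_nonneg (z.im + w.im)]

lemma re_bound (z w : ℂ) (hz : normSq z = 1) (hw : normSq w = 1) :
    |(z * w).re| ≤ 1 := by
  have h4 : normSq (z * w) = 1 := by rw [normSq_mul, hz, hw, one_mul]
  rw [normSq_apply] at h4
  rw [abs_le]
  constructor <;> nlinarith [sq_nonneg (z * w).im, sq_nonneg ((z * w).re - 1),
    sq_nonneg ((z * w).re + 1)]

/-- the points at squared distance `3` -/
lemma P_dist_three (z w : ℂ) (hz : normSq z = 1) (hw : normSq w = 1) :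
    normSq (P z - P w) = 3 ↔ kap z w = 0 := by
  rw [P_dist z w hz hw]
  obtain ⟨h1, h2⟩ := kap_bounds z w hz hw
  have h3 := abs_le.mp (re_bound z w hz hw)
  set k := kap z w
  set r := (z * w).re
  constructor
  · intro h
    have h4 : k * ((3 - k) * (r / 5 + k / 100) - 1) = 0 := by linear_combination h
    rcases mul_eq_zero.mp h4 with h5 | h5
    · exact h5
    · exfalso
      have h6 : r / 5 + k / 100 ≤ 23 / 100 := by linarith [h3.2]
      have h7 : (3 - k) * (r / 5 + k / 100) ≤ (3 - k) * (23 / 100) :=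
        mul_le_mul_of_nonneg_left h6 (by linarith)
      linarith
  · intro h; rw [h]; ring

lemma P_inj (z w : ℂ) (hz : normSq z = 1) (hw : normSq w = 1) (h : P z = P w) : z = w := by
  have h0 : normSq (P z - P w) = 0 := by rw [h]; simp
  rw [P_dist z w hz hw] at h0
  obtain ⟨h1, h2⟩ := kap_bounds z w hz hw
  have h3 := abs_le.mp (re_bound z w hz hw)
  have h4 : 0 < 1 + kap z w / 5 * (z * w).re + kap z w ^ 2 / 100 := by
    nlinarith [sq_nonneg (kap z w)]
  have h5 : kap z w = 3 := by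
    rcases mul_eq_zero.mp h0 with h5 | h5
    · linarith
    · linarith
  rw [normSq_apply] at hz hw
  unfold kap at h5
  have h6 : (z.re - w.re) ^ 2 + (z.im - w.im) ^ 2 = 0 := by nlinarith
  apply Complex.ext
  · nlinarith [sq_nonneg (z.re - w.re), sq_nonneg (z.im - w.im)]
  · nlinarith [sq_nonneg (z.re - w.re), sq_nonneg (z.im - w.im)]

/-- a primitive cube root of unity -/
noncomputable def om : ℂ := ⟨-1 / 2, Real.sqrt 3 / 2⟩

lemma om_sq_add : om ^ 2 + om + 1 = 0 := by
  have h : Real.sqrt 3 * Real.sqrt 3 = 3 := Real.mul_self_sqrt (by norm_num)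
  apply Complex.ext
  · simp [om, pow_two]; nlinarith
  · simp [om, pow_two]; ring

lemma om_cube : om ^ 3 = 1 := by
  linear_combination (om - 1) * om_sq_add

lemma normSq_om : normSq om = 1 := by
  have h : Real.sqrt 3 * Real.sqrt 3 = 3 := Real.mul_self_sqrt (by norm_num)
  rw [normSq_apply]
  simp only [om]
  nlinarith

lemma om_ne : om ≠ om ^ 2 := by
  intro h
  have h1 : om ^ 3 = om * om ^ 2 := by ring
  have h2 := om_sq_add
  rw [← h] at h2
  have h3 := congrArg Complex.im h2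
  simp [om] at h3

lemma kap_zero (z w : ℂ) (hz : normSq z = 1) (hw : normSq w = 1) :
    kap z w = 0 ↔ (w = om * z ∨ w = om ^ 2 * z) := by
  have h1 : z * (starRingEnd ℂ) z = 1 := by rw [mul_conj, hz]; simp
  have h2 : w * (starRingEnd ℂ) w = 1 := by rw [mul_conj, hw]; simp
  have hz0 : z ≠ 0 := by rintro rfl; simp at hz
  have hw0 : w ≠ 0 := by rintro rfl; simp at hw
  have h3 : (kap z w : ℂ) = 1 + z * (starRingEnd ℂ) w + w * (starRingEnd ℂ) z := by
    apply Complex.ext
    · simp [kap]; ring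
    · simp; ring
  have hq : z ^ 2 + z * w + w ^ 2 = z * w * (kap z w : ℂ) := by
    rw [h3]
    linear_combination (-(w ^ 2)) * h1 - z ^ 2 * h2
  have hf : z ^ 2 + z * w + w ^ 2 = (w - om * z) * (w - om ^ 2 * z) := by
    linear_combination (z * w - z ^ 2 * (om - 1)) * om_sq_add
  constructor
  · intro h
    rw [hf, h] at hq
    simp only [ofReal_zero, mul_zero] at hq
    rcases mul_eq_zero.mp hq with h | h
    · left; linear_combination h
    · right; linear_combination h
  · intro h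
    have h0 : z * w * (kap z w : ℂ) = 0 := by
      rw [← hq, hf]
      rcases h with h | h
      · rw [h]; ring
      · rw [h]; ring
    have : (kap z w : ℂ) = 0 := by
      rcases mul_eq_zero.mp h0 with h | h
      · exact absurd h (mul_ne_zero hz0 hw0)
      · exact h
    exact_mod_cast this

lemma P_om (z : ℂ) : P (om * z) = om * z + z ^ 3 / 10 := by
  unfold P
  rw [mul_pow, om_cube]; ring

lemma P_om2 (z : ℂ) : P (om ^ 2 * z) = om ^ 2 * z + z ^ 3 / 10 := by
  unfold P
  have : (om ^ 2 * z) ^ 3 = z ^ 3 := by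
    rw [mul_pow, ← pow_mul, show 2 * 3 = 3 * 2 from rfl, pow_mul, om_cube]; ring
  rw [this]

/-! ### The curves in Euclidean space -/

section Space

variable {n : ℕ} (e0 e1 v : EuclideanSpace ℝ (Fin n))

/-- the plane spanned by `e0`, `e1` -/
noncomputable def emb (z : ℂ) : EuclideanSpace ℝ (Fin n) := z.re • e0 + z.im • e1

/-- orthonormality conditions -/
structure Frame : Prop where
  h00 : inner ℝ e0 e0 = 1
  h11 : inner ℝ e1 e1 = 1
  h01 : inner ℝ e0 e1 = 0
  h0v : inner ℝ e0 v = 0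
  h1v : inner ℝ e1 v = 0

variable {e0 e1 v}

lemma inner_emb_emb (F : Frame e0 e1 v) (z w : ℂ) :
    inner ℝ (emb e0 e1 z) (emb e0 e1 w) = z.re * w.re + z.im * w.im := by
  have h10 : inner ℝ e1 e0 = 0 := by rw [real_inner_comm]; exact F.h01
  simp only [emb, inner_add_left, inner_add_right, inner_smul_left, inner_smul_right, F.h00, F.h11,
    F.h01, h10]
  simp
  ring

lemma inner_emb_v (F : Frame e0 e1 v) (z : ℂ) : inner ℝ (emb e0 e1 z) v = 0 := by
  simp only [emb, inner_add_left, inner_smul_left, F.h0v, F.h1v]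
  simp

lemma dist_emb (F : Frame e0 e1 v) (z w : ℂ) :
    dist (emb e0 e1 z) (emb e0 e1 w) ^ 2 = normSq (z - w) := by
  rw [dist_eq_norm, ← real_inner_self_eq_norm_sq, inner_sub_left, inner_sub_right, inner_sub_right,
    inner_emb_emb F, inner_emb_emb F, inner_emb_emb F, inner_emb_emb F, normSq_apply]
  simp only [sub_re, sub_im]
  ring

lemma dist_emb_add (F : Frame e0 e1 v) (z w : ℂ) :
    dist (emb e0 e1 z) (emb e0 e1 w + v) ^ 2 = normSq (z - w) + inner ℝ v v := by
  rw [← dist_emb F, dist_eq_norm, dist_eq_norm, ← real_inner_self_eq_norm_sq,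
    ← real_inner_self_eq_norm_sq]
  rw [← sub_sub]
  have h1 : inner ℝ (emb e0 e1 z - emb e0 e1 w) v = 0 := by
    rw [inner_sub_left, inner_emb_v F, inner_emb_v F, sub_zero]
  have h2 : inner ℝ v (emb e0 e1 z - emb e0 e1 w) = 0 := by rw [real_inner_comm]; exact h1
  generalize emb e0 e1 z - emb e0 e1 w = u at *
  rw [inner_sub_left, inner_sub_right, inner_sub_right, h1, h2]
  ring

lemma emb_inj (F : Frame e0 e1 v) {z w : ℂ} (h : emb e0 e1 z = emb e0 e1 w) : z = w := by
  have h1 := dist_emb F z w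
  rw [h, dist_self] at h1
  have h2 : normSq (z - w) = 0 := by rw [← h1]; norm_num
  rw [normSq_eq_zero] at h2
  exact sub_eq_zero.mp h2

lemma emb_eq_add (F : Frame e0 e1 v) {z w : ℂ} (h : emb e0 e1 z = emb e0 e1 w + v) : v = 0 := by
  have h1 : inner ℝ (emb e0 e1 z) v = inner ℝ (emb e0 e1 w + v) v := by rw [h]
  rw [inner_emb_v F, inner_add_left, inner_emb_v F, zero_add] at h1
  exact inner_self_eq_zero.mp h1.symm

variable (e0 e1 v)

/-- the first curve -/
noncomputable def cA : Set (EuclideanSpace ℝ (Fin n)) := {x | ∃ z : ℂ, normSq z = 1 ∧ x = emb e0 e1 (P z)}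

/-- the second curve -/
noncomputable def cB : Set (EuclideanSpace ℝ (Fin n)) :=
  {x | ∃ z : ℂ, normSq z = 1 ∧ x = emb e0 e1 (P z) + v}

variable {e0 e1 v}

/-- the three points of `A` and of `B` above the cube-root orbit of `z` -/
noncomputable def orb (e0 e1 v : EuclideanSpace ℝ (Fin n)) (z : ℂ) :
    Set (EuclideanSpace ℝ (Fin n)) :=
  {emb e0 e1 (P z), emb e0 e1 (P (om * z)), emb e0 e1 (P (om ^ 2 * z)),
    emb e0 e1 (P z) + v, emb e0 e1 (P (om * z)) + v, emb e0 e1 (P (om ^ 2 * z)) + v}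

lemma normSq_om_mul {z : ℂ} (hz : normSq z = 1) : normSq (om * z) = 1 := by
  rw [normSq_mul, normSq_om, hz, one_mul]

lemma normSq_om2_mul {z : ℂ} (hz : normSq z = 1) : normSq (om ^ 2 * z) = 1 := by
  rw [normSq_mul, pow_two, normSq_mul, normSq_om, hz]; norm_num

/-- distance in terms of the parameter -/
lemma dist_iff (F : Frame e0 e1 v) {z w : ℂ} (hz : normSq z = 1) (hw : normSq w = 1) :
    dist (emb e0 e1 (P z)) (emb e0 e1 (P w) + v) = Real.sqrt (3 + inner ℝ v v) ↔
      (w = om * z ∨ w = om ^ 2 * z) := by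
  rw [← kap_zero z w hz hw, ← P_dist_three z w hz hw]
  have hv : 0 ≤ inner ℝ v v := real_inner_self_nonneg
  constructor
  · intro h
    have h1 := dist_emb_add F (P z) (P w)
    rw [h, Real.sq_sqrt (by linarith)] at h1
    linarith
  · intro h
    have h1 := dist_emb_add F (P z) (P w)
    rw [h] at h1
    rw [← h1, Real.sqrt_sq dist_nonneg]

lemma continuous_P : Continuous P := by unfold P; fun_prop

lemma continuous_emb : Continuous (emb e0 e1) := by
  unfold emb
  exact (Complex.continuous_re.smul continuous_const).add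
    (Complex.continuous_im.smul continuous_const)

lemma curveA (F : Frame e0 e1 v) : IsSimpleClosedCurve (cA e0 e1) := by
  refine ⟨fun z => emb e0 e1 (P z), ?_, ?_, ?_⟩
  · exact continuous_emb.comp (continuous_P.comp continuous_subtype_val)
  · intro z w h
    have h1 := emb_inj F h
    have := P_inj z w (Circle.normSq_coe z) (Circle.normSq_coe w) h1
    exact Circle.ext this
  · ext x
    constructor
    · rintro ⟨z, rfl⟩
      exact ⟨z, Circle.normSq_coe z, rfl⟩
    · rintro ⟨z, hz, rfl⟩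
      have hz' : ‖z‖ = 1 := by
        rw [normSq_eq_norm_sq] at hz
        nlinarith [norm_nonneg z]
      exact ⟨⟨z, by simpa [Submonoid.unitSphere] using hz'⟩, rfl⟩

lemma image_cA : cB e0 e1 v = (fun x => (1 : ℝ) • x + v) '' cA e0 e1 := by
  ext x
  constructor
  · rintro ⟨z, hz, rfl⟩
    exact ⟨_, ⟨z, hz, rfl⟩, by simp⟩
  · rintro ⟨y, ⟨z, hz, rfl⟩, rfl⟩
    exact ⟨z, hz, by simp⟩

lemma curveB (F : Frame e0 e1 v) : IsSimpleClosedCurve (cB e0 e1 v) := by
  obtain ⟨f, hf, hi, hr⟩ := curveA F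
  refine ⟨fun z => f z + v, hf.add continuous_const, fun z w h => hi (add_right_cancel h), ?_⟩
  rw [image_cA, ← hr]
  ext x
  constructor
  · rintro ⟨y, rfl⟩
    exact ⟨f y, ⟨y, rfl⟩, by simp⟩
  · rintro ⟨_, ⟨y, rfl⟩, rfl⟩
    exact ⟨y, by simp⟩

lemma disj (F : Frame e0 e1 v) (hv : v ≠ 0) : Disjoint (cA e0 e1) (cB e0 e1 v) := by
  rw [Set.disjoint_left]
  rintro x ⟨z, -, rfl⟩ ⟨w, -, h⟩
  exact hv (emb_eq_add F h)

/-- the curve is not contained in a sphere -/
lemma not_sphere (F : Frame e0 e1 v) (c : EuclideanSpace ℝ (Fin n)) (r : ℝ)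
    (h : ∀ x ∈ cA e0 e1, dist x c = r) : False := by
  have h1 : ∀ z : ℂ, normSq z = 1 → dist (emb e0 e1 (P z)) c = r := fun z hz => h _ ⟨z, hz, rfl⟩
  have h2 : ∀ z : ℂ, dist (emb e0 e1 z) c ^ 2 = normSq z -
      2 * (z.re * inner ℝ e0 c + z.im * inner ℝ e1 c) + inner ℝ c c := by
    intro z
    rw [dist_eq_norm, ← real_inner_self_eq_norm_sq, inner_sub_left, inner_sub_right,
      inner_sub_right, inner_emb_emb F, normSq_apply, real_inner_comm (emb e0 e1 z) c]
    have : inner ℝ (emb e0 e1 z) c = z.re * inner ℝ e0 c + z.im * inner ℝ e1 c := by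
      simp only [emb, inner_add_left, inner_smul_left]; simp
    rw [this]; ring
  have a1 := h1 1 (by simp)
  have a2 := h1 (-1) (by simp)
  have a3 := h1 I (by simp)
  have a4 := h1 (-I) (by simp)
  have b1 := h2 (P 1)
  have b2 := h2 (P (-1))
  have b3 := h2 (P I)
  have b4 := h2 (P (-I))
  rw [a1] at b1
  rw [a2] at b2
  rw [a3] at b3
  rw [a4] at b4
  have p1 : P 1 = ⟨11 / 10, 0⟩ := by
    apply Complex.ext <;> simp [P] <;> norm_num
  have p2 : P (-1) = ⟨-11 / 10, 0⟩ := by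
    apply Complex.ext <;> simp [P, pow_succ] <;> norm_num
  have p3 : P I = ⟨0, 9 / 10⟩ := by
    apply Complex.ext <;> simp [P, pow_succ] <;> norm_num
  have p4 : P (-I) = ⟨0, -9 / 10⟩ := by
    apply Complex.ext <;> simp [P, pow_succ] <;> norm_num
  rw [p1, normSq_apply] at b1
  rw [p2, normSq_apply] at b2
  rw [p3, normSq_apply] at b3
  rw [p4, normSq_apply] at b4
  simp only at b1 b2 b3 b4
  nlinarith

lemma not_circleA (F : Frame e0 e1 v) : ¬ IsCircle (cA e0 e1) := by
  rintro ⟨c, r, V, -, -, h⟩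
  apply not_sphere F c r
  intro x hx
  rw [h] at hx
  exact hx.1

lemma not_circleB (F : Frame e0 e1 v) : ¬ IsCircle (cB e0 e1 v) := by
  rintro ⟨c, r, V, -, -, h⟩
  apply not_sphere F (c - v) r
  rintro x ⟨z, hz, rfl⟩
  have hx : emb e0 e1 (P z) + v ∈ cB e0 e1 v := ⟨z, hz, rfl⟩
  rw [h] at hx
  rw [← hx.1]
  simp only [dist_eq_norm]
  congr 1
  abel

/-- the neighbours of a point of `A` -/
lemma nbrA (F : Frame e0 e1 v) {z : ℂ} (hz : normSq z = 1) (y : EuclideanSpace ℝ (Fin n)) :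
    (dist (emb e0 e1 (P z)) y = Real.sqrt (3 + inner ℝ v v) ∧ y ∈ cB e0 e1 v) ↔
      (y = emb e0 e1 (P (om * z)) + v ∨ y = emb e0 e1 (P (om ^ 2 * z)) + v) := by
  constructor
  · rintro ⟨h, w, hw, rfl⟩
    rcases (dist_iff F hz hw).mp h with rfl | rfl
    · exact Or.inl rfl
    · exact Or.inr rfl
  · rintro (rfl | rfl)
    · exact ⟨(dist_iff F hz (normSq_om_mul hz)).mpr (Or.inl rfl), _, normSq_om_mul hz, rfl⟩
    · exact ⟨(dist_iff F hz (normSq_om2_mul hz)).mpr (Or.inr rfl), _, normSq_om2_mul hz, rfl⟩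

/-- the neighbours of a point of `B` -/
lemma nbrB (F : Frame e0 e1 v) {z : ℂ} (hz : normSq z = 1) (y : EuclideanSpace ℝ (Fin n)) :
    (dist (emb e0 e1 (P z) + v) y = Real.sqrt (3 + inner ℝ v v) ∧ y ∈ cA e0 e1) ↔
      (y = emb e0 e1 (P (om * z)) ∨ y = emb e0 e1 (P (om ^ 2 * z))) := by
  have o3 : om * (om ^ 2 * z) = z := by
    rw [← mul_assoc, ← pow_succ', om_cube, one_mul]
  have o3' : om ^ 2 * (om * z) = z := by
    rw [← mul_assoc, ← pow_succ, om_cube, one_mul]
  constructor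
  · rintro ⟨h, w, hw, rfl⟩
    rw [dist_comm] at h
    rcases (dist_iff F hw hz).mp h with h1 | h1
    · right
      rw [h1, ← mul_assoc, ← pow_succ, om_cube, one_mul]
    · left
      rw [h1, ← mul_assoc, ← pow_succ', om_cube, one_mul]
  · rintro (rfl | rfl)
    · refine ⟨?_, _, normSq_om_mul hz, rfl⟩
      rw [dist_comm]
      exact (dist_iff F (normSq_om_mul hz) hz).mpr (Or.inr o3'.symm)
    · refine ⟨?_, _, normSq_om2_mul hz, rfl⟩
      rw [dist_comm]
      exact (dist_iff F (normSq_om2_mul hz) hz).mpr (Or.inl o3.symm)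

lemma two_ne {z : ℂ} (hz : normSq z = 1) (F : Frame e0 e1 v) :
    emb e0 e1 (P (om * z)) ≠ emb e0 e1 (P (om ^ 2 * z)) := by
  intro h
  have h1 := emb_inj F h
  rw [P_om, P_om2] at h1
  have hz0 : z ≠ 0 := by rintro rfl; simp at hz
  have h2 : om * z = om ^ 2 * z := by linear_combination h1
  exact om_ne (mul_right_cancel₀ hz0 h2)

lemma d_pos : 0 < Real.sqrt (3 + inner ℝ v v) := by
  have hv : 0 ≤ inner ℝ v v := real_inner_self_nonneg
  exact Real.sqrt_pos.mpr (by linarith)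

/-- neighbours of a point of `A ∪ B` as a set of points of space -/
lemma adj_set (F : Frame e0 e1 v) (x : EuclideanSpace ℝ (Fin n)) (hx : x ∈ cA e0 e1 ∪ cB e0 e1 v) :
    ∃ p q : EuclideanSpace ℝ (Fin n), p ≠ q ∧ p ∈ cA e0 e1 ∪ cB e0 e1 v ∧
      q ∈ cA e0 e1 ∪ cB e0 e1 v ∧
      ∀ y, (dist x y = Real.sqrt (3 + inner ℝ v v) ∧
        ((x ∈ cA e0 e1 ∧ y ∈ cB e0 e1 v) ∨ (x ∈ cB e0 e1 v ∧ y ∈ cA e0 e1))) ↔ (y = p ∨ y = q) := by
  by_cases hv : v = 0
  · have hAB : cA e0 e1 = cB e0 e1 v := by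
      ext y
      constructor
      · rintro ⟨z, hz, rfl⟩; exact ⟨z, hz, by rw [hv, add_zero]⟩
      · rintro ⟨z, hz, rfl⟩; exact ⟨z, hz, by rw [hv, add_zero]⟩
    rw [← hAB, Set.union_self] at hx
    obtain ⟨z, hz, rfl⟩ := hx
    refine ⟨emb e0 e1 (P (om * z)) + v, emb e0 e1 (P (om ^ 2 * z)) + v,
      fun h => two_ne hz F (add_right_cancel h), Or.inr ⟨_, normSq_om_mul hz, rfl⟩,
      Or.inr ⟨_, normSq_om2_mul hz, rfl⟩, fun y => ?_⟩
    rw [← nbrA F hz y]
    constructor
    · rintro ⟨h, h' | h'⟩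
      · exact ⟨h, h'.2⟩
      · exact ⟨h, hAB ▸ h'.2⟩
    · rintro ⟨h, h'⟩
      exact ⟨h, Or.inl ⟨⟨z, hz, rfl⟩, h'⟩⟩
  · have hd := disj F hv
    rw [Set.disjoint_left] at hd
    rcases hx with ⟨z, hz, rfl⟩ | ⟨z, hz, rfl⟩
    · refine ⟨emb e0 e1 (P (om * z)) + v, emb e0 e1 (P (om ^ 2 * z)) + v,
        fun h => two_ne hz F (add_right_cancel h), Or.inr ⟨_, normSq_om_mul hz, rfl⟩,
        Or.inr ⟨_, normSq_om2_mul hz, rfl⟩, fun y => ?_⟩
      rw [← nbrA F hz y]
      constructor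
      · rintro ⟨h, h' | h'⟩
        · exact ⟨h, h'.2⟩
        · exact absurd h'.1 (hd ⟨z, hz, rfl⟩)
      · rintro ⟨h, h'⟩
        exact ⟨h, Or.inl ⟨⟨z, hz, rfl⟩, h'⟩⟩
    · refine ⟨emb e0 e1 (P (om * z)), emb e0 e1 (P (om ^ 2 * z)),
        two_ne hz F, Or.inl ⟨_, normSq_om_mul hz, rfl⟩,
        Or.inl ⟨_, normSq_om2_mul hz, rfl⟩, fun y => ?_⟩
      rw [← nbrB F hz y]
      constructor
      · rintro ⟨h, h' | h'⟩
        · exact absurd ⟨z, hz, rfl⟩ (hd h'.1)
        · exact ⟨h, h'.2⟩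
      · rintro ⟨h, h'⟩
        exact ⟨h, Or.inr ⟨⟨z, hz, rfl⟩, h'⟩⟩

lemma orb_om (z : ℂ) : orb e0 e1 v (om * z) = orb e0 e1 v z := by
  have o1 : om * (om * z) = om ^ 2 * z := by ring
  have o2 : om ^ 2 * (om * z) = z := by rw [← mul_assoc, ← pow_succ, om_cube, one_mul]
  unfold orb
  rw [o1, o2]
  ext x; simp only [Set.mem_insert_iff, Set.mem_singleton_iff]; tauto

lemma orb_om2 (z : ℂ) : orb e0 e1 v (om ^ 2 * z) = orb e0 e1 v z := by
  have o1 : om ^ 2 * z = om * (om * z) := by ring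
  rw [o1, orb_om, orb_om]

/-- the orbit set is closed under adjacency -/
lemma orb_closed (F : Frame e0 e1 v) {z : ℂ} (hz : normSq z = 1) {x y : EuclideanSpace ℝ (Fin n)}
    (hx : x ∈ orb e0 e1 v z) (h : dist x y = Real.sqrt (3 + inner ℝ v v) ∧
        ((x ∈ cA e0 e1 ∧ y ∈ cB e0 e1 v) ∨ (x ∈ cB e0 e1 v ∧ y ∈ cA e0 e1))) :
    y ∈ orb e0 e1 v z := by
  have key : ∃ w : ℂ, normSq w = 1 ∧ orb e0 e1 v w = orb e0 e1 v z ∧
      (x = emb e0 e1 (P w) ∨ x = emb e0 e1 (P w) + v) := by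
    simp only [orb, Set.mem_insert_iff, Set.mem_singleton_iff] at hx
    rcases hx with h | h | h | h | h | h
    · exact ⟨z, hz, rfl, Or.inl h⟩
    · exact ⟨_, normSq_om_mul hz, orb_om z, Or.inl h⟩
    · exact ⟨_, normSq_om2_mul hz, orb_om2 z, Or.inl h⟩
    · exact ⟨z, hz, rfl, Or.inr h⟩
    · exact ⟨_, normSq_om_mul hz, orb_om z, Or.inr h⟩
    · exact ⟨_, normSq_om2_mul hz, orb_om2 z, Or.inr h⟩
  obtain ⟨w, hw, hwz, hx'⟩ := key
  rw [← hwz]
  have mem1 : ∀ y, (y = emb e0 e1 (P (om * w)) + v ∨ y = emb e0 e1 (P (om ^ 2 * w)) + v) →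
      y ∈ orb e0 e1 v w := by
    rintro y (rfl | rfl) <;> simp [orb]
  have mem2 : ∀ y, (y = emb e0 e1 (P (om * w)) ∨ y = emb e0 e1 (P (om ^ 2 * w))) →
      y ∈ orb e0 e1 v w := by
    rintro y (rfl | rfl) <;> simp [orb]
  rcases hx' with rfl | rfl
  · rcases h with ⟨hd, ⟨-, hy⟩ | ⟨hxB, hy⟩⟩
    · exact mem1 y ((nbrA F hw y).mp ⟨hd, hy⟩)
    · -- then `v = 0`
      obtain ⟨u, hu, hu'⟩ := hxB
      have hv := emb_eq_add F hu'
      refine mem1 y ((nbrA F hw y).mp ⟨hd, ?_⟩)
      obtain ⟨t, ht, rfl⟩ := hy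
      exact ⟨t, ht, by rw [hv, add_zero]⟩
  · rcases h with ⟨hd, ⟨hxA, hy⟩ | ⟨-, hy⟩⟩
    · obtain ⟨u, hu, hu'⟩ := hxA
      have hv := emb_eq_add F hu'.symm
      refine mem2 y ((nbrB F hw y).mp ⟨hd, ?_⟩)
      obtain ⟨t, ht, rfl⟩ := hy
      exact ⟨t, ht, by rw [hv, add_zero]⟩
    · exact mem2 y ((nbrB F hw y).mp ⟨hd, hy⟩)

lemma orb_finite (z : ℂ) : (orb e0 e1 v z).Finite := by
  unfold orb
  exact Set.toFinite _

theorem graph_props (F : Frame e0 e1 v) :
    (∀ x, ((distGraph (cA e0 e1) (cB e0 e1 v) _ (d_pos (v := v))).neighborSet x).ncard = 2) ∧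
    ∀ C : (distGraph (cA e0 e1) (cB e0 e1 v) _ (d_pos (v := v))).ConnectedComponent,
      C.supp.Finite := by
  constructor
  · rintro ⟨x, hx⟩
    obtain ⟨p, q, hpq, hp, hq, h⟩ := adj_set F x hx
    have : (distGraph (cA e0 e1) (cB e0 e1 v) _ (d_pos (v := v))).neighborSet ⟨x, hx⟩ =
        {⟨p, hp⟩, ⟨q, hq⟩} := by
      ext ⟨y, hy⟩
      rw [SimpleGraph.mem_neighborSet]
      rw [Set.mem_insert_iff, Set.mem_singleton_iff, Subtype.mk.injEq, Subtype.mk.injEq]
      exact h y
    rw [this]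
    exact Set.ncard_pair (fun e => hpq (congrArg Subtype.val e))
  · intro C
    induction C using SimpleGraph.ConnectedComponent.ind with
    | _ x =>
    obtain ⟨x, hx⟩ := x
    have hz : ∃ z : ℂ, normSq z = 1 ∧ x ∈ orb e0 e1 v z := by
      rcases hx with ⟨z, hz, rfl⟩ | ⟨z, hz, rfl⟩
      · exact ⟨z, hz, by simp [orb]⟩
      · exact ⟨z, hz, by simp [orb]⟩
    obtain ⟨z, hz, hxz⟩ := hz
    have hsub : ((distGraph (cA e0 e1) (cB e0 e1 v) _ (d_pos (v := v))).connectedComponentMk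
        ⟨x, hx⟩).supp ⊆ Subtype.val ⁻¹' (orb e0 e1 v z) := by
      intro y hy
      rw [SimpleGraph.ConnectedComponent.mem_supp_iff, SimpleGraph.ConnectedComponent.eq] at hy
      obtain ⟨p⟩ := hy.symm
      clear hy
      have gen : ∀ (a b : ↥(cA e0 e1 ∪ cB e0 e1 v))
          (_ : (distGraph (cA e0 e1) (cB e0 e1 v) _ (d_pos (v := v))).Walk a b),
          a.1 ∈ orb e0 e1 v z → b.1 ∈ orb e0 e1 v z := by
        intro a b w
        induction w with
        | nil => exact id
        | cons hadj _ ih => exact fun ha => ih (orb_closed F hz ha hadj)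
      exact gen _ _ p hxz
    refine Set.Finite.subset ?_ hsub
    exact (orb_finite z).preimage Subtype.val_injective.injOn

end Space

/-- For every `n ≥ 2` there are homothetic simple closed curves `A`, `B` in Euclidean `n`-space,
neither of them a circle, disjoint if `n ≥ 3`, and a distance `d > 0` such that in the graph `G_d`
on `A ∪ B` every vertex has exactly two neighbours and every component is finite. -/
theorem result : ∀ n : ℕ, 2 ≤ n → ∃ (A B : Set (EuclideanSpace ℝ (Fin n))) (d : ℝ) (hd : 0 < d),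
    IsSimpleClosedCurve A ∧ IsSimpleClosedCurve B ∧ Homothetic A B ∧
    (3 ≤ n → Disjoint A B) ∧
    (∀ x, ((distGraph A B d hd).neighborSet x).ncard = 2) ∧
    (∀ C : (distGraph A B d hd).ConnectedComponent, C.supp.Finite) ∧
    ¬ IsCircle A ∧ ¬ IsCircle B := by
  intro n hn
  have key : ∃ e0 e1 v : EuclideanSpace ℝ (Fin n), Frame e0 e1 v ∧ (3 ≤ n → v ≠ 0) := by
    by_cases h3 : 3 ≤ n
    · refine ⟨EuclideanSpace.single ⟨0, by omega⟩ 1, EuclideanSpace.single ⟨1, by omega⟩ 1,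
        EuclideanSpace.single ⟨2, by omega⟩ 1, ⟨?_, ?_, ?_, ?_, ?_⟩, fun _ h => ?_⟩
      · simp [EuclideanSpace.inner_single_left]
      · simp [EuclideanSpace.inner_single_left]
      · simp [EuclideanSpace.inner_single_left]
      · simp [EuclideanSpace.inner_single_left]
      · simp [EuclideanSpace.inner_single_left]
      · have := congrArg (fun u : EuclideanSpace ℝ (Fin n) => u ⟨2, by omega⟩) h
        simp at this
    · refine ⟨EuclideanSpace.single ⟨0, by omega⟩ 1, EuclideanSpace.single ⟨1, by omega⟩ 1,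
        0, ⟨?_, ?_, ?_, ?_, ?_⟩, fun h => absurd h h3⟩
      all_goals simp [EuclideanSpace.inner_single_left]
  obtain ⟨e0, e1, v, F, hv⟩ := key
  refine ⟨cA e0 e1, cB e0 e1 v, _, d_pos (v := v), curveA F, curveB F, ⟨1, v, one_ne_zero, image_cA⟩,
    fun h => disj F (hv h), (graph_props F).1, (graph_props F).2, not_circleA F, not_circleB F⟩

end Pool.Agent.Results.MP_945a85_co.NonCircularLoci
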